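import Pool.Agent.H789.F5.Strength

/-!
# Vertices of degree three in contraction-minimal counterexamples to the 5-flow conjecture

There are at least 126 of them, and they span more than half as many edges.
-/

set_option autoImplicit false
set_option linter.unusedSectionVars false

namespace Pool.Agent.H789.F5

open Finset Pool.Agent.TH676.Z Pool.Agent.Y335.FL Pool.Agent.Y358.IN

variable {V E : Type} [Fintype V] [DecidableEq V] [Fintype E] [DecidableEq E]

/-- the vertices of degree three -/
def T3 (src dst : E → V) : Finset V := univ.filter (fun v => dg src dst v = 3)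

/-- the edges between different vertices of degree three -/
def J3 (src dst : E → V) : Finset E :=
  univ.filter (fun e => src e ≠ dst e ∧ dg src dst (src e) = 3 ∧ dg src dst (dst e) = 3)

theorem dg_eq_crs (src dst : E → V) (v : V) : (crs src dst {v}).card = dg src dst v := by
  unfold crs dg
  congr 1
  refine filter_congr fun e _ => ?_
  rw [mem_singleton, mem_singleton]
  constructor
  · intro h
    by_cases h1 : src e = v
    · have h2 : dst e ≠ v := fun h2 => h ⟨fun _ => h2, fun _ => h1⟩
      exact ⟨fun h3 => h2 (h3.symm.trans h1), Or.inl h1⟩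
    · have h2 : dst e = v := by
        by_contra h2
        exact h ⟨fun a => absurd a h1, fun a => absurd a h2⟩
      exact ⟨fun h3 => h1 (h3.trans h2), Or.inr h2⟩
  · rintro ⟨h0, h1⟩ h2
    rcases h1 with h1 | h1
    · exact h0 (h1.trans (h2.1 h1).symm)
    · exact h0 ((h2.2 h1).trans h1.symm)

variable {src dst : E → V}

theorem three_count (hc : St_contract) (ha : St_ahl) (hM : MinC src dst)
    (hex : ∃ x y, Adj src dst x y) :
    126 ≤ (T3 src dst).card ∧ (T3 src dst).card + 24 ≤ 2 * (J3 src dst).card := by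
  classical
  have h3 := threeC hc hM
  have hgi := girthC hc hM
  set B : Finset V := univ.filter (fun v => ∃ y, Adj src dst v y) with hB
  have hmB : ∀ v, v ∈ B ↔ ∃ y, Adj src dst v y := fun v => by simp [hB]
  let G : SimpleGraph B :=
    { Adj := fun a b => Adj src dst a b
      symm := ⟨fun a b h => GiAux.adj_symm h⟩
      loopless := ⟨fun a h => h.1 rfl⟩ }
  have hGA : ∀ a b : B, G.Adj a b ↔ Adj src dst a b := fun a b => Iff.rfl
  obtain ⟨x0, y0, hxy0⟩ := hex
  have : Nonempty B := ⟨⟨x0, (hmB x0).2 ⟨y0, hxy0⟩⟩⟩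
  have hdeg : ∀ a : B, dg src dst a ≤ G.degree a := by
    intro a
    refine (dg_le_nb hc hM a).trans ?_
    rw [← G.card_neighborFinset_eq_degree]
    have h5 : nb src dst a ⊆ (G.neighborFinset a).map (Function.Embedding.subtype _) := by
      intro w hw
      have hw' : Adj src dst a w := (mem_filter.1 hw).2
      have hwB : w ∈ B := (hmB w).2 ⟨a, GiAux.adj_symm hw'⟩
      rw [mem_map]
      exact ⟨⟨w, hwB⟩, by rw [SimpleGraph.mem_neighborFinset, hGA]; exact hw', rfl⟩
    have h6 := card_le_card h5
    rwa [card_map] at h6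
  have hdgB : ∀ a ∈ B, 3 ≤ dg src dst a := by
    intro a ha
    obtain ⟨y, hy⟩ := (hmB a).1 ha
    exact Ord.three_dg h3 hy
  have hdg3 : ∀ a : B, 3 ≤ dg src dst a := fun a => hdgB a a.2
  have hdeg3 : ∀ a : B, 3 ≤ G.degree a := fun a => (hdg3 a).trans (hdeg a)
  have hahl := ha B G (fun a => by have := hdeg3 a; omega) (by
    intro k hk v hv h
    exact hgi k hk (fun i => (v i : V)) (fun i j hij => hv (Subtype.ext hij)) h)
  -- vertices outside of `B` have degree zero
  have hout : ∀ a, a ∉ B → dg src dst a = 0 := by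
    intro a ha
    unfold dg
    rw [card_eq_zero, filter_eq_empty_iff]
    rintro e - ⟨hne, h | h⟩
    · exact ha ((hmB a).2 ⟨dst e, by rw [← h]; exact hne, e, Or.inl ⟨h, rfl⟩⟩)
    · exact ha ((hmB a).2 ⟨src e, by rw [← h]; exact hne.symm, e, Or.inr ⟨rfl, h⟩⟩)
  have hin : ∀ a, dg src dst a ≠ 0 → a ∈ B := fun a h => by
    by_contra h2
    exact h (hout a h2)
  -- sparsity
  have hins : ins src dst B = univ.filter (fun e => src e ≠ dst e) := by
    ext e
    refine ⟨fun h => mem_filter.2 ⟨mem_univ _, (mem_ins.1 h).1⟩, fun h => ?_⟩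
    have h0 := (mem_filter.1 h).2
    exact mem_ins.2 ⟨h0, (hmB _).2 ⟨dst e, h0, e, Or.inl ⟨rfl, rfl⟩⟩,
      (hmB _).2 ⟨src e, h0.symm, e, Or.inr ⟨rfl, rfl⟩⟩⟩
  have hsp := sparse hM _ B rfl (by
    obtain ⟨hne, e, he⟩ := hxy0
    refine ⟨e, ?_⟩
    rw [hins, mem_filter]
    refine ⟨mem_univ _, ?_⟩
    rcases he with ⟨a, b⟩ | ⟨a, b⟩
    · rw [a, b]; exact hne
    · rw [a, b]; exact hne.symm)
  rw [hins] at hsp
  set m : ℕ := (univ.filter (fun e => src e ≠ dst e)).card with hm
  set k : ℕ := (T3 src dst).card with hk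
  set R : Finset V := univ.filter (fun v => 4 ≤ dg src dst v) with hR
  set s : ℕ := ∑ v ∈ R, dg src dst v with hs
  have hTR : T3 src dst ∪ R = B := by
    ext a
    rw [mem_union, T3, hR, mem_filter, mem_filter]
    constructor
    · rintro (h | h) <;> exact hin a (by have := h.2; omega)
    · intro h
      have := hdgB a h
      by_cases h4 : dg src dst a = 3
      · exact Or.inl ⟨mem_univ _, h4⟩
      · exact Or.inr ⟨mem_univ _, by omega⟩
  have hTRd : Disjoint (T3 src dst) R := by
    rw [disjoint_left]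
    intro a h1 h2
    rw [T3, mem_filter] at h1
    rw [hR, mem_filter] at h2
    omega
  have hN : B.card = k + R.card := by rw [← hTR, card_union_of_disjoint hTRd]
  have h4R : 4 * R.card ≤ s := by
    rw [hs, mul_comm, ← smul_eq_mul, ← sum_const]
    exact sum_le_sum fun v hv => (mem_filter.1 hv).2
  have hsT : ∑ v ∈ T3 src dst, dg src dst v = 3 * k := by
    have h5 : ∀ v ∈ T3 src dst, dg src dst v = 3 := fun v hv => (mem_filter.1 hv).2
    rw [sum_congr rfl h5, sum_const, smul_eq_mul, mul_comm]
  -- the sum of the degrees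
  have h2m : 3 * k + s = 2 * m := by
    have h5 := sum_dg src dst (fun _ => 1)
    simp only [one_mul] at h5
    rw [sum_const, smul_eq_mul] at h5
    rw [← hsT, hs, ← sum_union hTRd, hTR]
    rw [sum_subset (subset_univ B) (fun a _ ha => hout a ha), h5]
    ring
  -- the edges between vertices of degree three
  have hJ : 3 * k ≤ 2 * (J3 src dst).card + s := by
    have h5 := sum_dg src dst (fun v => if dg src dst v = 3 then 1 else 0)
    have h6 := sum_dg src dst (fun v => if 4 ≤ dg src dst v then 1 else 0)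
    have h7 : ∑ x, (if dg src dst x = 3 then 1 else 0) * dg src dst x = 3 * k := by
      rw [← hsT, T3, sum_filter]
      refine sum_congr rfl fun x _ => ?_
      split_ifs <;> simp
    have h8 : ∑ x, (if 4 ≤ dg src dst x then 1 else 0) * dg src dst x = s := by
      rw [hs, hR, sum_filter]
      refine sum_congr rfl fun x _ => ?_
      split_ifs <;> simp
    rw [h7] at h5
    rw [h8] at h6
    have h9 : (J3 src dst).card = ∑ e ∈ univ.filter (fun e => src e ≠ dst e),
        (if dg src dst (src e) = 3 ∧ dg src dst (dst e) = 3 then 1 else 0) := by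
      rw [← card_filter, filter_filter]
      rfl
    rw [h5, h6, h9, mul_sum, ← sum_add_distrib]
    refine sum_le_sum fun e he => ?_
    have hne := (mem_filter.1 he).2
    have h10 := hdgB (src e) ((hmB _).2 ⟨dst e, hne, e, Or.inl ⟨rfl, rfl⟩⟩)
    have h11 := hdgB (dst e) ((hmB _).2 ⟨src e, hne.symm, e, Or.inr ⟨rfl, rfl⟩⟩)
    by_cases a : dg src dst (src e) = 3 <;> by_cases b : dg src dst (dst e) = 3
    · simp [a, b]
    · have : 4 ≤ dg src dst (dst e) := by omega
      simp [a, b, this]
    · have : 4 ≤ dg src dst (src e) := by omega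
      simp [a, b, this]
    · simp [a, b]
  refine ⟨?_, by omega⟩
  -- the Moore bound
  set N : ℝ := (Fintype.card B : ℝ) with hNr
  have hNB : N = (B.card : ℝ) := by rw [hNr, Fintype.card_coe]
  have hN0 : 0 < N := by
    rw [hNr]
    exact_mod_cast Fintype.card_pos
  have hge : 2 * (m : ℝ) ≤ 2 * (G.edgeFinset.card : ℝ) := by
    have h5 : ∑ a : B, G.degree a = 2 * G.edgeFinset.card := G.sum_degrees_eq_twice_card_edges
    have h6 : ∑ a : B, dg src dst a ≤ ∑ a : B, G.degree a := sum_le_sum fun a _ => hdeg a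
    have h7 : ∑ a ∈ B, dg src dst a = 2 * m := by rw [← hTR, sum_union hTRd, hsT, h2m]
    have h8 : ∑ a : B, dg src dst a = ∑ a ∈ B, dg src dst a :=
      sum_coe_sort B (fun a => dg src dst a)
    rw [h8, h7, h5] at h6
    exact_mod_cast h6
  set x : ℝ := 2 * (m : ℝ) / N - 1 with hx
  have h3N : 3 * N ≤ 2 * (m : ℝ) := by
    rw [hNB]
    have : 3 * B.card ≤ 2 * m := by omega
    exact_mod_cast this
  have hx2 : 2 ≤ x := by
    rw [hx]
    have : 3 ≤ 2 * (m : ℝ) / N := by rwa [le_div_iff₀ hN0]
    linarith
  have hx3 : x ≤ 7 / 3 := by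
    rw [hx]
    have h5 : 2 * (m : ℝ) / N ≤ 10 / 3 := by
      rw [div_le_iff₀ hN0, hNB]
      have : 3 * (m : ℝ) + 6 ≤ 5 * (B.card : ℝ) := by exact_mod_cast hsp
      linarith
    linarith
  have hS : 2 * ∑ i ∈ range 6, x ^ i ≤ N := by
    refine le_trans ?_ hahl
    refine mul_le_mul_of_nonneg_left (sum_le_sum fun i _ => ?_) (by norm_num)
    refine pow_le_pow_left₀ (by linarith) ?_ i
    rw [hx]
    have := div_le_div_of_nonneg_right hge hN0.le
    linarith
  have hfin := poly3 (k := (k : ℝ)) hx2 hx3 hS (by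
    have h5 : N * (3 - x) = 4 * N - 2 * (m : ℝ) := by
      rw [hx]
      field_simp
      ring
    rw [h5, hNB]
    have h6 : 4 * B.card ≤ k + 2 * m := by omega
    have h7 : 4 * (B.card : ℝ) ≤ (k : ℝ) + 2 * (m : ℝ) := by exact_mod_cast h6
    linarith)
  exact_mod_cast hfin

/-! ### The classes -/

/-- at least `126` disjoint vertex sets with three boundary edges are joined by few edges -/
def Fam (src dst : E → V) : Prop := ∀ (t : ℕ) (X : Fin t → Finset V), 126 ≤ t →
  (∀ i j, i ≠ j → Disjoint (X i) (X j)) → (∀ i, (crs src dst (X i)).card = 3) →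
  2 * (univ.filter (fun e => ∃ i j, i ≠ j ∧ src e ∈ X i ∧ dst e ∈ X j)).card ≤ t + 23

/-- at most `125` edge cuts have exactly three edges -/
def Cut125 (src dst : E → V) : Prop :=
  (univ.filter (fun F : Finset E => F.card = 3 ∧ ∃ X, crs src dst X = F)).card ≤ 125

theorem crs_comp (r : V → V) (X : Finset V) :
    crs (r ∘ src) (r ∘ dst) X = crs src dst (univ.filter (fun v => r v ∈ X)) := by
  ext e
  simp [crs]

theorem ccFam : CC (Fam (V := V) (E := E)) := by
  intro src dst e hF _ t X ht hd h3
  set r := ctr (src e) (dst e) with hr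
  have h1 := hF t (fun i => univ.filter (fun v => r v ∈ X i)) ht (by
    intro i j hij
    rw [disjoint_left]
    intro a ha hb
    exact disjoint_left.1 (hd i j hij) (mem_filter.1 ha).2 (mem_filter.1 hb).2) (fun i => by
      rw [← crs_comp]; exact h3 i)
  simpa using h1

theorem ccCut : CC (Cut125 (V := V) (E := E)) := by
  classical
  intro src dst e hF _
  unfold Cut125 at hF ⊢
  refine le_trans (card_le_card ?_) hF
  intro F hF'
  obtain ⟨h1, X, hX⟩ := (mem_filter.1 hF').2
  refine mem_filter.2 ⟨mem_univ _, h1, univ.filter (fun v => ctr (src e) (dst e) v ∈ X), ?_⟩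
  rw [← crs_comp]
  exact hX

theorem cc_or {A B : (E → V) → (E → V) → Prop} (hA : CC A) (hB : CC B) :
    CC (fun s d => A s d ∨ B s d) := by
  intro s d e h hne
  rcases h with h | h
  · exact Or.inl (hA s d e h hne)
  · exact Or.inr (hB s d e h hne)

/-- **Main step.** -/
theorem flow_of_three (hc : St_contract) (ha : St_ahl) (s0 d0 : E → V)
    (hcl : Cut125 s0 d0 ∨ Fam s0 d0) (hbr : Br s0 d0 ∅ ∅) : FlowOn s0 d0 ∅ ∅ := by
  classical
  by_contra hn
  obtain ⟨s, d, hcl', hM⟩ := exists_minC (cc_or ccCut ccFam) s0 d0 hcl hbr hn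
  by_cases hl : ∀ e, s e = d e
  · exact hM.nf (flow_of_loops hl)
  push Not at hl
  obtain ⟨e, he⟩ := hl
  obtain ⟨h126, hJ⟩ := three_count hc ha hM ⟨s e, d e, he, e, Or.inl ⟨rfl, rfl⟩⟩
  rcases hcl' with hcl' | hcl'
  · -- the cuts of the vertices of degree three are different
    have h1 : (T3 s d).card ≤ 125 := by
      refine le_trans ?_ hcl'
      refine card_le_card_of_injOn (fun v => crs s d {v}) ?_ ?_
      · intro v hv
        refine mem_coe.2 (mem_filter.2 ⟨mem_univ _, ?_, _, rfl⟩)
        show (crs s d {v}).card = 3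
        rw [dg_eq_crs]
        exact (mem_filter.1 (mem_coe.1 hv)).2
      · intro v hv w hw hvw
        by_contra hne
        have hvw' : crs s d {v} = crs s d {w} := hvw
        have h3 : (crs s d {v}).card = 3 := by
          rw [dg_eq_crs]
          exact (mem_filter.1 (mem_coe.1 hv)).2
        obtain ⟨e1, m1, e2, m2, hne12⟩ := one_lt_card.1
          (show 1 < (crs s d {v}).card by omega)
        have key : ∀ a ∈ crs s d {v}, Jn s d a v w := by
          intro a ha
          have ha' : a ∈ crs s d {w} := hvw' ▸ ha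
          rw [Crit.mem_crs, mem_singleton, mem_singleton] at ha ha'
          by_cases h5 : s a = v
          · left
            refine ⟨h5, ?_⟩
            have h6 : s a ≠ w := fun h => hne (h5.symm.trans h)
            tauto
          · right
            have h6 : d a = v := by tauto
            have h7 : d a ≠ w := fun h => hne (h6.symm.trans h)
            refine ⟨?_, h6⟩
            tauto
        exact hne12 (no_par hc hM hne (key e1 m1) (key e2 m2))
    omega
  · have h1 := hcl' (T3 s d).card (fun i => {((T3 s d).equivFin.symm i : V)}) h126 (by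
      intro i j hij
      rw [disjoint_singleton]
      intro h
      exact hij ((T3 s d).equivFin.symm.injective (Subtype.ext h))) (by
      intro i
      rw [dg_eq_crs]
      exact (mem_filter.1 ((T3 s d).equivFin.symm i).2).2)
    have h2 : J3 s d ⊆ univ.filter (fun e => ∃ i j, i ≠ j ∧
        s e ∈ ({((T3 s d).equivFin.symm i : V)} : Finset V) ∧
        d e ∈ ({((T3 s d).equivFin.symm j : V)} : Finset V)) := by
      intro a ha
      obtain ⟨g0, g1, g2⟩ := (mem_filter.1 ha).2
      have t1 : s a ∈ T3 s d := mem_filter.2 ⟨mem_univ _, g1⟩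
      have t2 : d a ∈ T3 s d := mem_filter.2 ⟨mem_univ _, g2⟩
      refine mem_filter.2 ⟨mem_univ _, (T3 s d).equivFin ⟨s a, t1⟩,
        (T3 s d).equivFin ⟨d a, t2⟩, ?_, ?_, ?_⟩
      · intro h
        exact g0 (congrArg Subtype.val ((T3 s d).equivFin.injective h))
      · rw [mem_singleton, Equiv.symm_apply_apply]
      · rw [mem_singleton, Equiv.symm_apply_apply]
    have h4 := card_le_card h2
    omega

end Pool.Agent.H789.F5
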