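import Pool.Agent.Y358.IN.Dirac2
import Pool.Agent.H185F.Admissible

/-!
# Graphs with at most 125 vertices of odd degree

The vertices of even degree can be split off without creating a bridge.
-/

set_option autoImplicit false
set_option linter.unusedSectionVars false

namespace Pool.Agent.H789.F5

open Finset Pool.Agent.TH676.Z Pool.Agent.Y335.FL Pool.Agent.Y358.IN
open Pool.Agent.H185F (rsrc sdst OddConn nl nl_flip nl_split exists_admissible ecut_flip t5_f t5_e
  t5_g)
open Pool.Agent.H239R2.Cover (ecut mem_ecut)

variable {V E : Type} [Fintype V] [DecidableEq V] [Fintype E] [DecidableEq E]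

theorem ecut_crs (src dst : E → V) (X : Finset V) : ecut src dst X = crs src dst X := rfl

theorem flow_flip (F : Finset E) (src dst : E → V)
    (h : FlowOn (rsrc F src dst) (rsrc F dst src) ∅ ∅) : FlowOn src dst ∅ ∅ := by
  obtain ⟨f, h1, -, h3⟩ := h
  refine ⟨fun e => if e ∈ F then - f e else f e, fun v => ?_, fun e he => absurd he (notMem_empty e),
    fun e a b => ?_⟩
  · rw [← h1 v]
    unfold bd rsrc
    refine sum_congr rfl fun e _ => ?_
    by_cases he : e ∈ F
    · simp only [he, if_true]
      by_cases a : src e = v <;> by_cases b : dst e = v <;> simp [a, b]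
    · simp only [he, if_false]
  · by_cases he : e ∈ F
    · simp only [he, if_true]
      exact neg_ne_zero.2 (h3 e a b)
    · simp only [he, if_false]
      exact h3 e a b

theorem flow_split (src dst : E → V) (e f : E) (hef : e ≠ f) (y : V)
    (he : dst e = y) (hf : src f = y) (h : FlowOn src (sdst dst e f y) ∅ ∅) :
    FlowOn src dst ∅ ∅ := by
  obtain ⟨s', h1, -, h3⟩ := h
  refine ⟨fun g => if g = f then s' e else s' g, fun v => ?_,
    fun e he => absurd he (notMem_empty e), fun g a b => ?_⟩
  · have key : bd src dst (fun g => if g = f then s' e else s' g) v -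
        bd src (sdst dst e f y) s' v = 0 := by
      unfold bd
      rw [← sum_sub_distrib, ← sum_subset (subset_univ {e, f})]
      · rw [sum_pair hef]
        simp only [if_neg hef, if_true]
        rw [t5_f, t5_e dst e f hef, he, hf]
        by_cases a1 : src e = v <;> by_cases a2 : y = v <;> by_cases a3 : dst f = v <;>
          simp [a1, a2, a3]
      · intro g _ hg
        rw [mem_insert, mem_singleton, not_or] at hg
        simp only [if_neg hg.2]
        rw [t5_g dst e f y g hg.1 hg.2, sub_self]
    rw [h1 v, sub_zero] at key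
    exact key
  · by_cases hg : g = f
    · simp only [hg, if_true]
      exact h3 e (notMem_empty _) (notMem_empty _)
    · simp only [hg, if_false]
      exact h3 g a b

/-- the degree of `v`, loops counted twice -/
def tot (src dst : E → V) (v : V) : ℕ :=
  ∑ e, ((if src e = v then 1 else 0) + (if dst e = v then 1 else 0))

theorem odd_tot (src dst : E → V) (v : V) :
    Odd (crs src dst {v}).card ↔ Odd (tot src dst v) := by
  have h1 : tot src dst v = (crs src dst {v}).card +
      2 * (univ.filter (fun e => src e = v ∧ dst e = v)).card := by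
    unfold tot crs
    rw [card_filter, card_filter, mul_sum, ← sum_add_distrib]
    refine sum_congr rfl fun e _ => ?_
    by_cases a : src e = v <;> by_cases b : dst e = v <;> simp [a, b]
  rw [h1]
  constructor
  · intro h
    exact h.add_even (even_two_mul _)
  · intro h
    by_contra h2
    rw [Nat.not_odd_iff_even] at h2
    exact (Nat.not_even_iff_odd.2 h) (h2.add (even_two_mul _))

theorem tot_flip (F : Finset E) (src dst : E → V) (v : V) :
    tot (rsrc F src dst) (rsrc F dst src) v = tot src dst v := by
  unfold tot rsrc
  refine sum_congr rfl fun e _ => ?_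
  by_cases he : e ∈ F
  · simp only [he, if_true]
    rw [add_comm]
  · simp only [he, if_false]

theorem tot_split (src dst : E → V) (e f : E) (hef : e ≠ f) (y : V) (he : dst e = y) (v : V) :
    tot src (sdst dst e f y) v = tot src dst v := by
  unfold tot
  rw [← sum_sdiff (subset_univ {e, f}), ← sum_sdiff (subset_univ {e, f})]
  congr 1
  · refine sum_congr rfl fun g hg => ?_
    rw [mem_sdiff, mem_insert, mem_singleton, not_or] at hg
    rw [t5_g dst e f y g hg.2.1 hg.2.2]
  · rw [sum_pair hef, sum_pair hef, t5_f, t5_e dst e f hef, he]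
    ring

/-- the vertices of odd degree -/
def OV (src dst : E → V) : Finset V := univ.filter (fun v => Odd (crs src dst {v}).card)

theorem ov_eq {src dst s d : E → V} (h : ∀ v, tot s d v = tot src dst v) :
    OV s d = OV src dst := by
  unfold OV
  refine filter_congr fun v _ => ?_
  rw [odd_tot, odd_tot, h v]

theorem oddConn_of_br {src dst : E → V} (h : Br src dst ∅ ∅) : OddConn 3 src dst := by
  intro X hX
  have h1 := h X (disjoint_empty_right _)
  rw [sdiff_empty] at h1
  rw [ecut_crs] at hX ⊢
  obtain ⟨k, hk⟩ := hX
  omega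

theorem br_of_oddConn {src dst : E → V} (h : OddConn 3 src dst) : Br src dst ∅ ∅ := by
  intro X _ h1
  rw [sdiff_empty] at h1
  have h2 := h X (by rw [ecut_crs, h1]; exact odd_one)
  rw [ecut_crs, h1] at h2
  omega

theorem oddConn_flip (F : Finset E) (src dst : E → V) (h : OddConn 3 src dst) :
    OddConn 3 (rsrc F src dst) (rsrc F dst src) := by
  intro X hX
  rw [ecut_flip] at hX ⊢
  exact h X hX

theorem wu_le_one (src dst : E → V) (v : V) : wu src dst v ≤ 1 := by
  unfold wu
  have h1 : (3 : ℝ) ≤ ((max (nt src dst v).card 3 : ℕ) : ℝ) := by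
    exact_mod_cast le_max_right _ _
  rw [div_le_one (by linarith)]
  linarith

theorem flow_of_odd_aux (hc : St_contract) (ha : St_ahl) : ∀ (m : ℕ) (src dst : E → V),
    nl src dst ≤ m → OddConn 3 src dst → (OV src dst).card ≤ 125 → FlowOn src dst ∅ ∅ := by
  intro m
  induction m using Nat.strong_induction_on with
  | _ m ih =>
  intro src dst hm hcon hov
  by_cases hev : ∃ y, Even (ecut src dst {y}).card ∧ (ecut src dst {y}).Nonempty
  · obtain ⟨y, hy, e, he⟩ := hev
    rw [mem_ecut] at he
    simp only [mem_singleton] at he
    obtain ⟨F0, h1, h2⟩ : ∃ F0 : Finset E, rsrc F0 dst src e = y ∧ rsrc F0 src dst e ≠ y := by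
      by_cases hd : dst e = y
      · refine ⟨∅, by simpa [rsrc] using hd, ?_⟩
        have : src e ≠ y := fun h => he ⟨fun _ => hd, fun _ => h⟩
        simpa [rsrc] using this
      · have hs : src e = y := by
          by_contra hs
          exact he ⟨fun h => absurd h hs, fun h => absurd h hd⟩
        exact ⟨{e}, by simpa [rsrc] using hs, by simpa [rsrc] using hd⟩
    have hcon1 := oddConn_flip F0 src dst hcon
    have hy1 : Even (ecut (rsrc F0 src dst) (rsrc F0 dst src) {y}).card := by
      rw [ecut_flip]; exact hy
    obtain ⟨f, F, hfe, heF, hf1, hf2, he1, hcon2⟩ :=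
      exists_admissible 3 (by decide) _ _ hcon1 y hy1 e h1 h2
    have hnl1 : nl (rsrc F (rsrc F0 src dst) (rsrc F0 dst src))
        (rsrc F (rsrc F0 dst src) (rsrc F0 src dst)) = nl src dst := by
      rw [nl_flip, nl_flip]
    have hse : rsrc F (rsrc F0 src dst) (rsrc F0 dst src) e ≠ y := by
      simp only [rsrc, if_neg heF] at h2 ⊢
      exact h2
    have hlt := nl_split _ _ e f hfe.symm y he1 hf1 hse hf2
    rw [hnl1] at hlt
    have hov2 : OV (rsrc F (rsrc F0 src dst) (rsrc F0 dst src))
        (sdst (rsrc F (rsrc F0 dst src) (rsrc F0 src dst)) e f y) = OV src dst := by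
      refine ov_eq fun v => ?_
      rw [tot_split _ _ e f hfe.symm y he1, tot_flip, tot_flip]
    have hflow := ih _ (lt_of_lt_of_le hlt hm) _ _ le_rfl hcon2 (by rw [hov2]; exact hov)
    have hg2 := flow_split _ _ e f hfe.symm y he1 hf1 hflow
    exact flow_flip F0 _ _ (flow_flip F _ _ hg2)
  · push Not at hev
    refine flow_of_weight' hc ha src dst ?_ (br_of_oddConn hcon)
    have hsub : univ.filter (fun v => 3 ≤ dg src dst v) ⊆ OV src dst := by
      intro v hv
      have h3 := (mem_filter.1 hv).2
      refine mem_filter.2 ⟨mem_univ _, ?_⟩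
      by_contra hcon'
      rw [Nat.not_odd_iff_even] at hcon'
      have h4 := hev v hcon'
      rw [ecut_crs] at h4
      have h5 : (crs src dst {v}).card = dg src dst v := by
        unfold crs dg
        congr 1
        refine filter_congr fun e _ => ?_
        rw [mem_singleton, mem_singleton]
        constructor
        · intro h
          by_cases h1 : src e = v
          · have h2 : dst e ≠ v := fun h2 => h ⟨fun _ => h2, fun _ => h1⟩
            exact ⟨fun h3 => h2 (h3.symm.trans h1), Or.inl h1⟩
          · have h2 : dst e = v := by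
              by_contra h2
              exact h ⟨fun a => absurd a h1, fun a => absurd a h2⟩
            exact ⟨fun h3 => h1 (h3.trans h2), Or.inr h2⟩
        · rintro ⟨h0, h1⟩ h2
          rcases h1 with h1 | h1
          · exact h0 (h1.trans (h2.1 h1).symm)
          · exact h0 ((h2.2 h1).trans h1.symm)
      rw [h4, card_empty] at h5
      omega
    have h1 : ∑ v ∈ univ.filter (fun v => 3 ≤ dg src dst v), wu src dst v ≤
        ∑ _v ∈ univ.filter (fun v => 3 ≤ dg src dst v), (1 : ℝ) :=
      sum_le_sum fun v _ => wu_le_one src dst v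
    rw [sum_const, nsmul_eq_mul, mul_one] at h1
    have h2 : ((univ.filter (fun v => 3 ≤ dg src dst v)).card : ℝ) ≤ 125 := by
      exact_mod_cast (card_le_card hsub).trans hov
    linarith

/-- **Main step.** -/
theorem flow_of_odd (hc : St_contract) (ha : St_ahl) (src dst : E → V)
    (hov : (OV src dst).card ≤ 125) (hbr : Br src dst ∅ ∅) : FlowOn src dst ∅ ∅ :=
  flow_of_odd_aux hc ha _ src dst le_rfl (oddConn_of_br hbr) hov

end Pool.Agent.H789.F5
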