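import Pool.Agent.H789.F5.Count
import Pool.Agent.H789.F5.OddV
import Pool.Agent.Y335.FL.Local11

/-!
# Cuts which avoid cycles with at most eleven new edges
-/

set_option autoImplicit false
set_option linter.unusedSectionVars false

namespace Pool.Agent.H789.F5

open Finset Pool.Agent.TH676.Z Pool.Agent.Y335.FL Pool.Agent.Y358.IN

variable {V E : Type} [Fintype V] [DecidableEq V] [Fintype E] [DecidableEq E]

/-- the cycles `C i`, each with at most eleven edges outside of the union of the earlier ones -/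
def Cyc11 (src dst : E → V) (m : ℕ) (C : Fin m → Finset E) : Prop :=
  (∀ i, ∃ z : E → ZMod 5, (∀ v, bd src dst z v = 0) ∧ (∀ e, z e = 0 ∨ z e = 1 ∨ z e = -1) ∧
      ∀ e, z e ≠ 0 ↔ e ∈ C i) ∧
  ∀ i, (C i \ (univ.filter (fun j => j < i)).biUnion C).card ≤ 11

theorem crs_disj {src dst : E → V} {F : Finset E} {r : V → V}
    (hF : ∀ e ∈ F, r (src e) = r (dst e)) (X : Finset V) :
    Disjoint (crs src dst (univ.filter (fun v => r v ∈ X))) F := by
  rw [disjoint_left]
  intro e he heF
  rw [← crs_comp, Crit.mem_crs] at he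
  apply he
  show r (src e) ∈ X ↔ r (dst e) ∈ X
  rw [hF e heF]

theorem lift_flow (hL : St_lift) (src dst : E → V) (m : ℕ) (C : Fin m → Finset E)
    (hC : Cyc11 src dst m C) (hbr : Br src dst ∅ ∅)
    (h : ∀ r : V → V, (∀ e ∈ univ.biUnion C, r (src e) = r (dst e)) →
      Br (r ∘ src) (r ∘ dst) ∅ ∅ → FlowOn (r ∘ src) (r ∘ dst) ∅ ∅) : FlowOn src dst ∅ ∅ := by
  obtain ⟨r, h1, h2, -⟩ := Local11.quot src dst (univ.biUnion C)
  have h3 := h2 ∅ (h r h1 (fun Y _ => by
    rw [sdiff_empty, crs_comp]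
    have := hbr (univ.filter (fun v => r v ∈ Y)) (disjoint_empty_right _)
    rwa [sdiff_empty] at this))
  rw [union_empty] at h3
  exact hL V E src dst m C hC.1 hC.2 h3

/-- few 3-edge-cuts avoid `F` -/
def CutF (src dst : E → V) (F : Finset E) : Prop :=
  (univ.filter (fun D : Finset E => D.card = 3 ∧ Disjoint D F ∧
    ∃ X, crs src dst X = D)).card ≤ 125

def FamF (src dst : E → V) (F : Finset E) : Prop := ∀ (t : ℕ) (X : Fin t → Finset V), 126 ≤ t →
  (∀ i j, i ≠ j → Disjoint (X i) (X j)) →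
  (∀ i, (crs src dst (X i)).card = 3 ∧ Disjoint (crs src dst (X i)) F) →
  2 * (univ.filter (fun e => ∃ i j, i ≠ j ∧ src e ∈ X i ∧ dst e ∈ X j)).card ≤ t + 23

theorem flow_of_three_lift (hc : St_contract) (ha : St_ahl) (hL : St_lift) (src dst : E → V)
    (m : ℕ) (C : Fin m → Finset E) (hC : Cyc11 src dst m C)
    (hcl : CutF src dst (univ.biUnion C) ∨ FamF src dst (univ.biUnion C))
    (hbr : Br src dst ∅ ∅) : FlowOn src dst ∅ ∅ := by
  classical
  refine lift_flow hL src dst m C hC hbr fun r hr hbr' => flow_of_three hc ha _ _ ?_ hbr'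
  rcases hcl with hcl | hcl
  · left
    refine le_trans (card_le_card ?_) hcl
    intro D hD
    obtain ⟨h1, X, hX⟩ := (mem_filter.1 hD).2
    refine mem_filter.2 ⟨mem_univ _, h1, ?_, univ.filter (fun v => r v ∈ X), ?_⟩
    · rw [← hX, crs_comp]
      exact crs_disj hr X
    · rw [← crs_comp]
      exact hX
  · right
    intro t X ht hd h3
    have h1 := hcl t (fun i => univ.filter (fun v => r v ∈ X i)) ht (by
      intro i j hij
      rw [disjoint_left]
      intro a ha hb
      exact disjoint_left.1 (hd i j hij) (mem_filter.1 ha).2 (mem_filter.1 hb).2) (fun i => by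
        refine ⟨?_, crs_disj hr (X i)⟩
        rw [← crs_comp]; exact h3 i)
    simpa using h1

theorem flow_of_odd_lift (hc : St_contract) (ha : St_ahl) (hL : St_lift) (src dst : E → V)
    (m : ℕ) (C : Fin m → Finset E) (hC : Cyc11 src dst m C)
    (hno : ¬ ∃ X : Fin 126 → Finset V, (∀ i j, i ≠ j → Disjoint (X i) (X j)) ∧
      ∀ i, Odd (crs src dst (X i)).card ∧ Disjoint (crs src dst (X i)) (univ.biUnion C))
    (hbr : Br src dst ∅ ∅) : FlowOn src dst ∅ ∅ := by
  classical
  refine lift_flow hL src dst m C hC hbr fun r hr hbr' => flow_of_odd hc ha _ _ ?_ hbr'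
  by_contra hcon
  push Not at hcon
  obtain ⟨U, hU, hUc⟩ := exists_subset_card_eq (Nat.succ_le_of_lt hcon)
  let φ : Fin 126 ≃ U := (Finset.equivFinOfCardEq hUc).symm
  apply hno
  refine ⟨fun i => univ.filter (fun v => r v ∈ ({(φ i : V)} : Finset V)), ?_, ?_⟩
  · intro i j hij
    rw [disjoint_left]
    intro a ha hb
    have h1 := mem_singleton.1 (mem_filter.1 ha).2
    have h2 := mem_singleton.1 (mem_filter.1 hb).2
    exact hij (φ.injective (Subtype.ext (h1.symm.trans h2)))
  · intro i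
    refine ⟨?_, crs_disj hr _⟩
    have h1 := (mem_filter.1 (hU (φ i).2)).2
    rwa [crs_comp] at h1

end Pool.Agent.H789.F5
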