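import Pool.Agent.Y358.IN.Dirac
import Pool.Agent.H170.Reg.Good

/-!
# Sparsity of contraction-minimal counterexamples to the 5-flow conjecture

No edge set of such a graph is `Z_5`-connected, so every vertex set `X` spans at most
`(5 |X| - 6) / 3` proper edges.
-/

set_option autoImplicit false
set_option linter.unusedSectionVars false

namespace Pool.Agent.H789.F5

open Finset Pool.Agent.TH676.Z Pool.Agent.Y335.FL Pool.Agent.Y358.IN

variable {V E : Type} [Fintype V] [DecidableEq V] [Fintype E] [DecidableEq E]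

/-- the proper edges with both ends in `X` -/
def ins (src dst : E → V) (X : Finset V) : Finset E :=
  univ.filter (fun e => src e ≠ dst e ∧ src e ∈ X ∧ dst e ∈ X)

theorem mem_ins {src dst : E → V} {X : Finset V} {e : E} :
    e ∈ ins src dst X ↔ src e ≠ dst e ∧ src e ∈ X ∧ dst e ∈ X := by simp [ins]

variable {src dst : E → V}

theorem not_good (hM : MinC src dst) (X : Finset V) (hX : (ins src dst X).Nonempty) :
    ¬ Pool.Agent.H170.Reg.Good 5
      (fun e : {e // e ∈ ins src dst X} => (⟨src e.1, (mem_ins.1 e.2).2.1⟩ : {v // v ∈ X}))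
      (fun e : {e // e ∈ ins src dst X} => (⟨dst e.1, (mem_ins.1 e.2).2.2⟩ : {v // v ∈ X}))
      univ := by
  intro hG
  obtain ⟨e0, he0⟩ := hX
  obtain ⟨f, hf0, _, hf2⟩ := hM.crit (ins src dst X) ⟨e0, he0, (mem_ins.1 he0).1⟩
  obtain ⟨f', h1, h2⟩ := hG (fun _ => 0) (fun e => f e.1)
  apply hM.nf
  obtain ⟨F, hF1, hF2⟩ : ∃ F : E → ZMod 5, (∀ e : {e // e ∈ ins src dst X}, F e.1 = f' e) ∧
      ∀ e, e ∉ ins src dst X → F e = f e := by
    refine ⟨fun e => if h : e ∈ ins src dst X then f' ⟨e, h⟩ else f e, ?_, ?_⟩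
    · intro e
      simp only [dif_pos e.2]
    · intro e he
      simp only [dif_neg he]
  refine ⟨F, ?_, fun e he => absurd he (notMem_empty e), ?_⟩
  · intro v
    have key : bd src dst F v = bd src dst f v +
        ∑ e ∈ ins src dst X, (F e - f e) *
          ((if src e = v then 1 else 0) - (if dst e = v then 1 else 0)) := by
      rw [sum_subset (subset_univ (ins src dst X)) (fun e _ he => by
        rw [hF2 e he, sub_self, zero_mul])]
      unfold bd
      rw [← sum_add_distrib]
      refine sum_congr rfl fun e _ => ?_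
      by_cases a : src e = v <;> by_cases b : dst e = v <;>
        simp only [a, b, if_true, if_false] <;> ring
    rw [key, hf0 v, zero_add]
    by_cases hv : v ∈ X
    · have h3 := h2 ⟨v, hv⟩
      rw [← sum_coe_sort (ins src dst X) (fun e => (F e - f e) *
          ((if src e = v then 1 else 0) - (if dst e = v then 1 else 0)))]
      refine Eq.trans (sum_congr rfl fun e _ => ?_) h3
      rw [hF1 e]
      unfold Pool.Agent.H170.Reg.ic
      simp only [Subtype.mk.injEq]
    · refine sum_eq_zero fun e he => ?_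
      obtain ⟨_, a, b⟩ := mem_ins.1 he
      have a' : src e ≠ v := fun h => hv (h ▸ a)
      have b' : dst e ≠ v := fun h => hv (h ▸ b)
      simp [a', b']
  · intro e _ _
    by_cases he : e ∈ ins src dst X
    · have := hF1 ⟨e, he⟩
      simp only at this
      rw [this]
      exact h1 ⟨e, he⟩ (mem_univ _)
    · rw [hF2 e he]
      exact hf2 e (notMem_empty e) he

/-- every vertex set `X` with edges spans at most `(5 |X| - 6) / 3` of them -/
theorem sparse (hM : MinC src dst) : ∀ (n : ℕ) (X : Finset V), X.card = n →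
    (ins src dst X).Nonempty → 3 * (ins src dst X).card + 6 ≤ 5 * X.card := by
  classical
  intro n
  induction n using Nat.strong_induction_on with
  | _ n ih =>
  intro X hXn hX
  obtain ⟨c, π, hπ, hlt⟩ : ∃ (c : ℕ) (π : {v // v ∈ X} → Fin c), Function.Surjective π ∧
      3 * (univ.filter (fun e : {e // e ∈ ins src dst X} =>
        π ⟨src e.1, (mem_ins.1 e.2).2.1⟩ ≠ π ⟨dst e.1, (mem_ins.1 e.2).2.2⟩)).card + 5 < 5 * c := by
    by_contra hcon
    push Not at hcon
    refine not_good hM X hX (Pool.Agent.H170.Reg.good_strength 5 (by norm_num) _ _ ∅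
      (Pool.Agent.H170.Reg.good_empty 5 _ _) (fun c π hπ _ => ?_))
    have := hcon c π hπ
    exact this
  have hc2 : 2 ≤ c := by omega
  let p : V → ℕ := fun v => if h : v ∈ X then (π ⟨v, h⟩ : ℕ) else 0
  have hp : ∀ (v : V) (h : v ∈ X), p v = (π ⟨v, h⟩ : ℕ) := fun v h => by
    simp only [p, dif_pos h]
  have hpc : ∀ v ∈ X, p v ∈ range c := fun v h => by
    rw [hp v h, mem_range]
    exact (π ⟨v, h⟩).2
  set B : ℕ → Finset V := fun i => X.filter (fun v => p v = i) with hB
  have hBsub : ∀ i, B i ⊆ X := fun i => filter_subset _ _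
  have hBne : ∀ i, i < c → (B i).Nonempty := by
    intro i hi
    obtain ⟨⟨v, hv⟩, h⟩ := hπ ⟨i, hi⟩
    refine ⟨v, mem_filter.2 ⟨hv, ?_⟩⟩
    rw [hp v hv, h]
  have hBlt : ∀ i, i < c → (B i).card < X.card := by
    intro i hi
    apply card_lt_card
    refine ⟨hBsub i, fun h => ?_⟩
    obtain ⟨j, hj, hij⟩ : ∃ j, j < c ∧ j ≠ i := by
      by_cases h0 : i = 0
      · exact ⟨1, by omega, by omega⟩
      · exact ⟨0, by omega, by omega⟩
    obtain ⟨v, hv⟩ := hBne j hj
    have h1 := (mem_filter.1 (h (hBsub j hv))).2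
    have h2 := (mem_filter.1 hv).2
    exact hij (h2.symm.trans h1)
  have hloc : ∀ i ∈ range c, 3 * (ins src dst (B i)).card + 5 ≤ 5 * (B i).card := by
    intro i hi
    rw [mem_range] at hi
    by_cases hne : (ins src dst (B i)).Nonempty
    · have := ih (B i).card (by rw [← hXn]; exact hBlt i hi) (B i) rfl hne
      omega
    · rw [not_nonempty_iff_eq_empty] at hne
      rw [hne, card_empty]
      have := card_pos.2 (hBne i hi)
      omega
  have hsum := sum_le_sum hloc
  rw [sum_add_distrib, ← mul_sum, ← mul_sum, sum_const, card_range, smul_eq_mul,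
    ← card_eq_sum_card_fiberwise (f := p) (s := X) (t := range c) (fun v hv => hpc v hv)] at hsum
  set cr : Finset E := (ins src dst X).filter (fun e => p (src e) ≠ p (dst e)) with hcr
  have hcrle : cr.card ≤ (univ.filter (fun e : {e // e ∈ ins src dst X} =>
        π ⟨src e.1, (mem_ins.1 e.2).2.1⟩ ≠ π ⟨dst e.1, (mem_ins.1 e.2).2.2⟩)).card := by
    rw [← card_map (Function.Embedding.subtype (fun e => e ∈ ins src dst X))]
    apply card_le_card
    intro e he
    obtain ⟨h1, h2⟩ := mem_filter.1 he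
    rw [mem_map]
    refine ⟨⟨e, h1⟩, mem_filter.2 ⟨mem_univ _, ?_⟩, rfl⟩
    intro h3
    apply h2
    rw [hp _ (mem_ins.1 h1).2.1, hp _ (mem_ins.1 h1).2.2, h3]
  have hcov : ins src dst X ⊆ cr ∪ (range c).biUnion (fun i => ins src dst (B i)) := by
    intro e he
    obtain ⟨h0, h1, h2⟩ := mem_ins.1 he
    by_cases h : p (src e) = p (dst e)
    · refine mem_union_right _ (mem_biUnion.2 ⟨p (src e), hpc _ h1, mem_ins.2 ⟨h0, ?_, ?_⟩⟩)
      · exact mem_filter.2 ⟨h1, rfl⟩
      · exact mem_filter.2 ⟨h2, h.symm⟩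
    · exact mem_union_left _ (mem_filter.2 ⟨he, h⟩)
  have hcard : (ins src dst X).card ≤ cr.card + ∑ i ∈ range c, (ins src dst (B i)).card :=
    (card_le_card hcov).trans ((card_union_le _ _).trans (Nat.add_le_add_left card_biUnion_le _))
  omega

/-- double counting -/
theorem sum_dg (src dst : E → V) (w : V → ℕ) : ∑ x, w x * dg src dst x =
    ∑ e ∈ univ.filter (fun e => src e ≠ dst e), (w (src e) + w (dst e)) := by
  have h1 : ∀ x, dg src dst x = ∑ e ∈ univ.filter (fun e => src e ≠ dst e),
      ((if src e = x then 1 else 0) + (if dst e = x then 1 else 0)) := by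
    intro x
    unfold dg
    rw [card_filter, sum_filter]
    refine sum_congr rfl fun e _ => ?_
    by_cases h : src e = dst e
    · simp [h]
    · by_cases h2 : src e = x
      · have h3 : dst e ≠ x := fun h4 => h (h2.trans h4.symm)
        rw [if_pos ⟨h, Or.inl h2⟩, if_pos h, if_pos h2, if_neg h3]
      · by_cases h3 : dst e = x
        · rw [if_pos ⟨h, Or.inr h3⟩, if_pos h, if_neg h2, if_pos h3]
        · rw [if_neg (fun h4 => h4.2.elim h2 h3), if_pos h, if_neg h2, if_neg h3]
  simp_rw [h1, mul_sum]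
  rw [sum_comm]
  refine sum_congr rfl fun e _ => ?_
  simp_rw [mul_add]
  rw [sum_add_distrib]
  simp

theorem poly3 {x N k : ℝ} (hx : 2 ≤ x) (hx3 : x ≤ 7 / 3) (h : 2 * ∑ i ∈ range 6, x ^ i ≤ N)
    (hk : N * (3 - x) ≤ k) : 126 ≤ k := by
  refine le_trans ?_ hk
  rw [sum_range_succ, sum_range_succ, sum_range_succ, sum_range_succ, sum_range_succ,
    sum_range_succ, sum_range_zero] at h
  obtain ⟨y, hy, rfl⟩ : ∃ y, 0 ≤ y ∧ x = 2 + y := ⟨x - 2, by linarith, by ring⟩
  have h2 : 0 ≤ y ^ 2 := by positivity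
  have h3 : 0 ≤ y ^ 3 := by positivity
  have h4 : 0 ≤ y ^ 4 := by positivity
  have h5 : 0 ≤ y ^ 5 := by positivity
  have h6 : 126 + 258 * y ≤ N := by
    refine le_trans ?_ h
    nlinarith
  have h7 : 0 ≤ 1 - y := by linarith
  nlinarith [mul_le_mul_of_nonneg_right h6 h7]

end Pool.Agent.H789.F5
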